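import Pool.Agent.W186.AI.Spec

set_option autoImplicit false

namespace Pool.Agent.W703.AI.LEA

open Complex Filter Topology Metric Set
open scoped Real

/-- The Taylor coefficients of a bounded holomorphic function. -/
theorem taylor (f : ℂ → ℂ) (r B : ℝ) (hr : 0 < r) (hf : DifferentiableOn ℂ f (ball (0 : ℂ) r))
    (hB : ∀ w ∈ ball (0 : ℂ) r, ‖f w‖ ≤ B) :
    ∃ c : ℕ → ℂ, (∀ j, ‖c j‖ ≤ B * ((r / 2)⁻¹) ^ j) ∧
      ∀ w : ℂ, ‖w‖ < r / 2 → HasSum (fun j => w ^ j * c j) (f w) := by
  have hρ : 0 < r / 2 := by linarith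
  have hsub : closedBall (0 : ℂ) (r / 2) ⊆ ball (0 : ℂ) r := closedBall_subset_ball (by linarith)
  lift r / 2 to NNReal using hρ.le with ρ hρe
  have hρ' : 0 < ρ := by exact_mod_cast hρ
  have hps := (hf.mono hsub).hasFPowerSeriesOnBall hρ'
  have hps : HasFPowerSeriesOnBall f (cauchyPowerSeries f 0 ρ) 0 ρ := hps
  refine ⟨(cauchyPowerSeries f 0 ρ).coeff, ?_, ?_⟩
  · intro j
    rw [← FormalMultilinearSeries.norm_apply_eq_norm_coef]
    refine (norm_cauchyPowerSeries_le f 0 ρ j).trans ?_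
    rw [abs_of_pos hρ]
    refine mul_le_mul_of_nonneg_right ?_ (by positivity)
    have h1 : (∫ θ : ℝ in (0)..2 * π, ‖f (circleMap 0 ρ θ)‖) ≤ B * (2 * π) := by
      have h2 : ‖∫ θ : ℝ in (0)..2 * π, ‖f (circleMap 0 ρ θ)‖‖ ≤ B * |2 * π - 0| := by
        refine intervalIntegral.norm_integral_le_of_norm_le_const ?_
        intro θ _
        rw [norm_norm]
        refine hB _ (hsub ?_)
        exact circleMap_mem_closedBall 0 hρ.le θ
      rw [sub_zero, abs_of_pos (by positivity)] at h2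
      exact (le_abs_self _).trans h2
    calc (2 * π)⁻¹ * ∫ θ : ℝ in (0)..2 * π, ‖f (circleMap 0 ρ θ)‖
        ≤ (2 * π)⁻¹ * (B * (2 * π)) := mul_le_mul_of_nonneg_left h1 (by positivity)
      _ = B := by field_simp
  · intro w hw
    have hmem : w ∈ Metric.eball (0 : ℂ) (ρ : ENNReal) := by
      rw [mem_eball_zero_iff]
      rw [← ofReal_norm]
      rw [← ENNReal.ofReal_coe_nnreal]
      exact (ENNReal.ofReal_lt_ofReal_iff hρ).2 hw
    have h := hps.hasSum hmem
    simp only [FormalMultilinearSeries.apply_eq_pow_smul_coeff, smul_eq_mul, zero_add] at h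
    exact h

theorem key (f : ℂ → ℂ) (r B : ℝ) (hr : 0 < r) (c : ℕ → ℂ)
    (hc : ∀ j, ‖c j‖ ≤ B * ((r / 2)⁻¹) ^ j)
    (hs : ∀ w : ℂ, ‖w‖ < r / 2 → HasSum (fun j => w ^ j * c j) (f w)) (k : ℕ)
    (hk : ∀ j < k, c j = 0) (w : ℂ) (hw0 : w ≠ 0) (hw : ‖w‖ ≤ r / 4) :
    ‖f w / w ^ k - c k‖ ≤ 2 * B * ((r / 2)⁻¹) ^ (k + 1) * ‖w‖ := by
  have hlt : ‖w‖ < r / 2 := by linarith
  have hwn : 0 < ‖w‖ := norm_pos_iff.2 hw0
  have h1 : HasSum (fun j => w ^ (j + (k + 1)) * c (j + (k + 1)))
      (f w - ∑ i ∈ Finset.range (k + 1), w ^ i * c i) :=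
    (hasSum_nat_add_iff' (k + 1)).2 (hs w hlt)
  have h2 : ∑ i ∈ Finset.range (k + 1), w ^ i * c i = w ^ k * c k := by
    rw [Finset.sum_range_succ, Finset.sum_eq_zero, zero_add]
    intro i hi
    rw [hk i (Finset.mem_range.1 hi), mul_zero]
  rw [h2] at h1
  set q : ℝ := ‖w‖ * (r / 2)⁻¹ with hq
  have hq0 : 0 ≤ q := by positivity
  have hq1 : q ≤ 1 / 2 := by
    rw [hq, ← div_eq_mul_inv, div_le_iff₀ (by linarith)]
    linarith
  have hB0 : 0 ≤ B := by
    have := (norm_nonneg _).trans (hc 0)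
    simpa using this
  have h3 : HasSum (fun j : ℕ => B * q ^ (k + 1) * q ^ j) (B * q ^ (k + 1) * (1 - q)⁻¹) :=
    (hasSum_geometric_of_lt_one hq0 (by linarith)).mul_left _
  have h4 : ‖f w - w ^ k * c k‖ ≤ B * q ^ (k + 1) * (1 - q)⁻¹ := by
    rw [← h1.tsum_eq]
    refine tsum_of_norm_bounded h3 ?_
    intro j
    rw [norm_mul, norm_pow]
    calc ‖w‖ ^ (j + (k + 1)) * ‖c (j + (k + 1))‖
        ≤ ‖w‖ ^ (j + (k + 1)) * (B * ((r / 2)⁻¹) ^ (j + (k + 1))) :=
          mul_le_mul_of_nonneg_left (hc _) (by positivity)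
      _ = B * q ^ (k + 1) * q ^ j := by
          rw [hq, mul_pow, mul_pow]; ring
  have h5 : (1 - q)⁻¹ ≤ 2 := by
    rw [inv_le_comm₀ (by linarith) (by norm_num)]
    linarith
  have h6 : ‖f w - w ^ k * c k‖ ≤ 2 * B * q ^ (k + 1) := by
    refine h4.trans ?_
    have : B * q ^ (k + 1) * (1 - q)⁻¹ ≤ B * q ^ (k + 1) * 2 :=
      mul_le_mul_of_nonneg_left h5 (by positivity)
    linarith
  have h7 : f w / w ^ k - c k = (f w - w ^ k * c k) / w ^ k := by
    field_simp
  rw [h7, norm_div, norm_pow, div_le_iff₀ (by positivity)]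
  refine h6.trans (le_of_eq ?_)
  rw [hq, mul_pow]
  ring

theorem main : Pool.Agent.W186.AI.S_LEA := by
  intro A _ K r B R hr hd hb hcont hseq
  have hρ : 0 < r / 2 := by linarith
  choose! c hc hs using fun x (hx : x ∈ K) => taylor (fun w => R w x) r B hr (hd x hx) (hb x hx)
  have hzero : ∀ k : ℕ, ∀ x ∈ K, c x k = 0 := by
    intro k
    induction k using Nat.strong_induction_on with
    | _ k ih =>
      intro x0 hx0
      obtain ⟨w, x, hw, hwx, hx, hR⟩ := hseq x0 hx0
      have hB0 : 0 ≤ B := by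
        have := (norm_nonneg _).trans (hc x0 hx0 0)
        simpa using this
      -- `c (x n) k → 0`
      have e1 : Tendsto (fun n => c (x n) k) atTop (𝓝 0) := by
        have a1 : Tendsto (fun n => 2 * B * ((r / 2)⁻¹) ^ (k + 1) * ‖w n‖) atTop (𝓝 0) := by
          have := (hw.norm).const_mul (2 * B * ((r / 2)⁻¹) ^ (k + 1))
          simpa using this
        have a2 : Tendsto (fun n => R (w n) (x n) / (w n) ^ k - c (x n) k) atTop (𝓝 0) := by
          refine squeeze_zero_norm' ?_ a1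
          have : ∀ᶠ n in atTop, ‖w n‖ ≤ r / 4 := by
            have h := hw.norm
            rw [norm_zero] at h
            exact (h.eventually (ge_mem_nhds (by linarith : (0 : ℝ) < r / 4)))
          filter_upwards [this] with n hn
          exact key (fun v => R v (x n)) r B hr (c (x n)) (hc _ (hwx n).2) (hs _ (hwx n).2) k
            (fun j hj => ih j hj _ (hwx n).2) (w n) (hwx n).1 hn
        have a3 := (hR k).sub a2
        simpa using a3
      -- `c (x n) k → c x0 k`
      have e2 : ∀ v : ℂ, v ≠ 0 → ‖v‖ ≤ r / 4 →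
          ‖c x0 k‖ ≤ 4 * B * ((r / 2)⁻¹) ^ (k + 1) * ‖v‖ := by
        intro v hv hv4
        have hvball : v ∈ ball (0 : ℂ) r := by
          rw [mem_ball_zero_iff]; linarith
        have b1 : Tendsto (fun n => R v (x n)) atTop (𝓝 (R v x0)) := by
          have h := hcont (v, x0) ⟨hvball, hx0⟩
          have h' : Tendsto (fun n => ((v, x n) : ℂ × A)) atTop
              (𝓝[ball (0 : ℂ) r ×ˢ K] (v, x0)) := by
            rw [tendsto_nhdsWithin_iff]
            exact ⟨tendsto_const_nhds.prodMk_nhds hx, Eventually.of_forall fun n =>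
              ⟨hvball, (hwx n).2⟩⟩
          exact h.tendsto.comp h'
        have b2 : Tendsto (fun n => ‖R v (x n) / v ^ k - R v x0 / v ^ k‖ + ‖c (x n) k‖ +
            4 * B * ((r / 2)⁻¹) ^ (k + 1) * ‖v‖) atTop
            (𝓝 (0 + 0 + 4 * B * ((r / 2)⁻¹) ^ (k + 1) * ‖v‖)) := by
          refine Tendsto.add (Tendsto.add ?_ ?_) tendsto_const_nhds
          · have := ((b1.div_const (v ^ k)).sub_const (R v x0 / v ^ k)).norm
            simpa using this
          · simpa using e1.norm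
        have b3 : ‖c x0 k‖ ≤ 0 + 0 + 4 * B * ((r / 2)⁻¹) ^ (k + 1) * ‖v‖ := by
          refine ge_of_tendsto' b2 ?_
          intro n
          have k1 := key (fun u => R u (x n)) r B hr (c (x n)) (hc _ (hwx n).2) (hs _ (hwx n).2) k
            (fun j hj => ih j hj _ (hwx n).2) v hv hv4
          have k2 := key (fun u => R u x0) r B hr (c x0) (hc _ hx0) (hs _ hx0) k
            (fun j hj => ih j hj _ hx0) v hv hv4
          have k3 : c x0 k = -(R v x0 / v ^ k - c x0 k) - (R v (x n) / v ^ k - R v x0 / v ^ k) +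
              (R v (x n) / v ^ k - c (x n) k) + c (x n) k := by ring
          calc ‖c x0 k‖ = ‖-(R v x0 / v ^ k - c x0 k) - (R v (x n) / v ^ k - R v x0 / v ^ k) +
              (R v (x n) / v ^ k - c (x n) k) + c (x n) k‖ := by rw [← k3]
            _ ≤ ‖-(R v x0 / v ^ k - c x0 k) - (R v (x n) / v ^ k - R v x0 / v ^ k) +
              (R v (x n) / v ^ k - c (x n) k)‖ + ‖c (x n) k‖ := norm_add_le _ _
            _ ≤ ‖-(R v x0 / v ^ k - c x0 k) - (R v (x n) / v ^ k - R v x0 / v ^ k)‖ +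
              ‖R v (x n) / v ^ k - c (x n) k‖ + ‖c (x n) k‖ := by
                gcongr; exact norm_add_le _ _
            _ ≤ ‖R v x0 / v ^ k - c x0 k‖ + ‖R v (x n) / v ^ k - R v x0 / v ^ k‖ +
              ‖R v (x n) / v ^ k - c (x n) k‖ + ‖c (x n) k‖ := by
                gcongr
                refine (norm_sub_le _ _).trans ?_
                rw [norm_neg]
            _ ≤ _ := by linarith
        linarith
      by_contra hne
      have hpos : 0 < ‖c x0 k‖ := norm_pos_iff.2 hne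
      set M : ℝ := 4 * B * ((r / 2)⁻¹) ^ (k + 1) + 1 with hM
      have hM0 : 0 < M := by positivity
      set t : ℝ := min (r / 4) (‖c x0 k‖ / (2 * M)) with ht
      have ht0 : 0 < t := lt_min (by linarith) (by positivity)
      have hvn : ‖(t : ℂ)‖ = t := by
        rw [Complex.norm_real, Real.norm_of_nonneg ht0.le]
      have := e2 (t : ℂ) (by exact_mod_cast ht0.ne') (by rw [hvn]; exact min_le_left _ _)
      rw [hvn] at this
      have h8 : t ≤ ‖c x0 k‖ / (2 * M) := min_le_right _ _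
      have h9 : t * (2 * M) ≤ ‖c x0 k‖ := (le_div_iff₀ (by positivity)).1 h8
      nlinarith
  intro x hx w hw
  have han : AnalyticOnNhd ℂ (fun w => R w x) (ball (0 : ℂ) r) :=
    (hd x hx).analyticOnNhd isOpen_ball
  have hev : (fun w => R w x) =ᶠ[𝓝 0] 0 := by
    filter_upwards [ball_mem_nhds (0 : ℂ) hρ] with v hv
    have hv' : ‖v‖ < r / 2 := by simpa using hv
    have h := hs x hx v hv'
    have h' : HasSum (fun j => v ^ j * c x j) 0 := by
      have : (fun j => v ^ j * c x j) = fun _ => 0 := by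
        funext j
        rw [hzero j x hx, mul_zero]
      rw [this]
      exact hasSum_zero
    exact h.unique h'
  exact han.eqOn_zero_of_preconnected_of_eventuallyEq_zero (convex_ball _ _).isPreconnected
    (mem_ball_self hr) hev hw

end Pool.Agent.W703.AI.LEA
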